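import Pool.Agent.U481.GL.Stm

set_option autoImplicit false

open MeasureTheory Filter Topology Set
open scoped ENNReal NNReal Real

namespace Pool.Agent.U319.GL

open Pool.Agent.U481.HW Pool.Agent.U481.GL

/-- pointwise inequality for the kernel -/
lemma ptw (r : ℝ) (hr : 0 < r) (d y : ℝ) (hd : 0 ≤ d) (hy : 0 < y) :
    (∑' k : ℕ, (if d < 2 ^ k * y then ENNReal.ofReal ((2:ℝ) ^ (-((k:ℝ) * r))) else 0)) ≤
      (1 - ENNReal.ofReal ((2:ℝ) ^ (-r)))⁻¹ * 2 *
        (ENNReal.ofReal (2 * y) * ENNReal.ofReal ((2 * y) ^ (r - 1) / ((2 * y) ^ r + d ^ r))) := by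
  classical
  have hex : ∃ k : ℕ, d < 2 ^ k * y := by
    obtain ⟨k, hk⟩ := pow_unbounded_of_one_lt (d / y) (one_lt_two : (1:ℝ) < 2)
    exact ⟨k, by rwa [div_lt_iff₀ hy] at hk⟩
  obtain ⟨k0, hk0, hmin⟩ : ∃ k0 : ℕ, d < 2 ^ k0 * y ∧ ∀ k < k0, ¬ d < 2 ^ k * y :=
    ⟨Nat.find hex, Nat.find_spec hex, fun k hk => Nat.find_min hex hk⟩
  have h1 : (∑' k : ℕ, (if d < 2 ^ k * y then ENNReal.ofReal ((2:ℝ) ^ (-((k:ℝ) * r))) else 0))
      ≤ ∑' k : ℕ, ENNReal.ofReal ((2:ℝ) ^ (-((k0:ℝ) * r))) * (ENNReal.ofReal ((2:ℝ) ^ (-r))) ^ k := by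
    rw [← Summable.sum_add_tsum_nat_add' (k := k0) ENNReal.summable]
    have h2 : ∑ k ∈ Finset.range k0,
        (if d < 2 ^ k * y then ENNReal.ofReal ((2:ℝ) ^ (-((k:ℝ) * r))) else 0) = 0 := by
      refine Finset.sum_eq_zero fun k hk => ?_
      rw [if_neg (hmin k (Finset.mem_range.1 hk))]
    rw [h2, zero_add]
    refine ENNReal.tsum_le_tsum fun k => ?_
    have h3 : ENNReal.ofReal ((2:ℝ) ^ (-(((k + k0 : ℕ):ℝ) * r))) =
        ENNReal.ofReal ((2:ℝ) ^ (-((k0:ℝ) * r))) * (ENNReal.ofReal ((2:ℝ) ^ (-r))) ^ k := by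
      rw [← ENNReal.ofReal_pow (by positivity), ← ENNReal.ofReal_mul (by positivity)]
      congr 1
      rw [← Real.rpow_natCast, ← Real.rpow_mul (by norm_num), ← Real.rpow_add (by norm_num)]
      congr 1
      push_cast
      ring
    split_ifs
    · exact h3.le
    · exact zero_le
  refine h1.trans ?_
  rw [ENNReal.tsum_mul_left, ENNReal.tsum_geometric]
  have h4 : ENNReal.ofReal ((2:ℝ) ^ (-((k0:ℝ) * r))) ≤
      2 * (ENNReal.ofReal (2 * y) * ENNReal.ofReal ((2 * y) ^ (r - 1) / ((2 * y) ^ r + d ^ r))) := by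
    have e2 : (2:ℝ≥0∞) = ENNReal.ofReal 2 := by simp
    rw [e2, ← ENNReal.ofReal_mul (by positivity), ← ENNReal.ofReal_mul (by norm_num)]
    apply ENNReal.ofReal_le_ofReal
    have hA : 0 < (2 * y) ^ r := by positivity
    have hD : 0 ≤ d ^ r := by positivity
    have hP : 1 ≤ (2:ℝ) ^ ((k0:ℝ) * r) := Real.one_le_rpow (by norm_num) (by positivity)
    have hDP : d ^ r ≤ (2:ℝ) ^ ((k0:ℝ) * r) * (2 * y) ^ r := by
      calc d ^ r ≤ (2 ^ k0 * (2 * y)) ^ r := by
            apply Real.rpow_le_rpow hd _ hr.le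
            have h5 : (0:ℝ) < 2 ^ k0 := by positivity
            nlinarith [hk0, mul_pos h5 hy]
        _ = (2:ℝ) ^ ((k0:ℝ) * r) * (2 * y) ^ r := by
            rw [Real.mul_rpow (by positivity) (by positivity), ← Real.rpow_natCast,
              ← Real.rpow_mul (by norm_num)]
    have h6 : (2 * y) * ((2 * y) ^ (r - 1) / ((2 * y) ^ r + d ^ r)) =
        (2 * y) ^ r / ((2 * y) ^ r + d ^ r) := by
      rw [← mul_div_assoc]
      congr 1
      rw [Real.rpow_sub_one (by positivity)]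
      field_simp
    rw [h6, Real.rpow_neg (by norm_num), ← one_div, ← mul_div_assoc,
      div_le_div_iff₀ (by positivity) (by positivity)]
    nlinarith [mul_le_mul_of_nonneg_right hP hA.le]
  calc ENNReal.ofReal ((2:ℝ) ^ (-((k0:ℝ) * r))) * (1 - ENNReal.ofReal ((2:ℝ) ^ (-r)))⁻¹
      ≤ (2 * (ENNReal.ofReal (2 * y) * ENNReal.ofReal ((2 * y) ^ (r - 1) / ((2 * y) ^ r + d ^ r)))) *
        (1 - ENNReal.ofReal ((2:ℝ) ^ (-r)))⁻¹ := by gcongr
    _ = _ := by ring

/-- the mass of `(x - 2^k y, x + 2^k y)` -/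
noncomputable def u (U : ℝ → ℝ≥0) (x y : ℝ) (k : ℕ) : ℝ≥0∞ :=
  ∫⁻ t in Ioo (x - 2 ^ k * y) (x + 2 ^ k * y), (U t : ℝ≥0∞)

lemma gfin (r : ℝ) (hr : 0 < r) : (1 - ENNReal.ofReal ((2:ℝ) ^ (-r)))⁻¹ * 2 < ⊤ := by
  apply ENNReal.mul_lt_top _ (by simp)
  rw [ENNReal.inv_lt_top, tsub_pos_iff_lt, ENNReal.ofReal_lt_one]
  exact Real.rpow_lt_one_of_one_lt_of_neg (by norm_num) (by linarith)

/-- the summed inequality -/
lemma summed (r : ℝ) (hr : 0 < r) (U : ℝ → ℝ≥0) (hU : IsWeight U) (K : ℝ≥0∞)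
    (hK : ∀ a b : ℝ, a < b →
    (∫⁻ x, ENNReal.ofReal ((b - a) ^ (r - 1) / ((b - a) ^ r + |x - (a + b) / 2| ^ r)) * (U x : ℝ≥0∞))
      ≤ K * ENNReal.ofReal (1 / (b - a)) * ∫⁻ x in Ioo a b, (U x : ℝ≥0∞)) (x y : ℝ) (hy : 0 < y) :
    ∑' k : ℕ, ENNReal.ofReal ((2:ℝ) ^ (-((k:ℝ) * r))) * u U x y k ≤
      (1 - ENNReal.ofReal ((2:ℝ) ^ (-r)))⁻¹ * 2 * K * u U x y 0 := by
  have hm : Measurable (fun t => (U t : ℝ≥0∞)) := hU.meas.coe_nnreal_ennreal
  have h1 : ∀ k : ℕ, ENNReal.ofReal ((2:ℝ) ^ (-((k:ℝ) * r))) * u U x y k =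
      ∫⁻ t, (if |t - x| < 2 ^ k * y then ENNReal.ofReal ((2:ℝ) ^ (-((k:ℝ) * r))) else 0) *
        (U t : ℝ≥0∞) := by
    intro k
    unfold u
    rw [← lintegral_const_mul _ hm, ← lintegral_indicator measurableSet_Ioo]
    congr 1
    funext t
    have h2 : t ∈ Ioo (x - 2 ^ k * y) (x + 2 ^ k * y) ↔ |t - x| < 2 ^ k * y := by
      rw [mem_Ioo, abs_lt]
      constructor
      · rintro ⟨h, h'⟩; constructor <;> linarith
      · rintro ⟨h, h'⟩; constructor <;> linarith
    by_cases h : |t - x| < 2 ^ k * y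
    · rw [indicator_of_mem (h2.2 h), if_pos h]
    · rw [indicator_of_notMem (fun h' => h (h2.1 h')), if_neg h, zero_mul]
  have hms : ∀ k : ℕ, Measurable (fun t : ℝ =>
      (if |t - x| < 2 ^ k * y then ENNReal.ofReal ((2:ℝ) ^ (-((k:ℝ) * r))) else 0) *
        (U t : ℝ≥0∞)) := by
    intro k
    refine Measurable.mul (Measurable.ite ?_ measurable_const measurable_const) hm
    exact measurableSet_lt (by fun_prop) measurable_const
  calc ∑' k : ℕ, ENNReal.ofReal ((2:ℝ) ^ (-((k:ℝ) * r))) * u U x y k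
      = ∫⁻ t, ∑' k : ℕ, (if |t - x| < 2 ^ k * y then ENNReal.ofReal ((2:ℝ) ^ (-((k:ℝ) * r))) else 0) *
        (U t : ℝ≥0∞) := by
        rw [lintegral_tsum fun k => (hms k).aemeasurable]
        exact tsum_congr h1
    _ ≤ ∫⁻ t, ((1 - ENNReal.ofReal ((2:ℝ) ^ (-r)))⁻¹ * 2 * ENNReal.ofReal (2 * y)) *
        (ENNReal.ofReal ((2 * y) ^ (r - 1) / ((2 * y) ^ r + |t - x| ^ r)) * (U t : ℝ≥0∞)) := by
        refine lintegral_mono fun t => ?_
        rw [ENNReal.tsum_mul_right]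
        calc _ ≤ (1 - ENNReal.ofReal ((2:ℝ) ^ (-r)))⁻¹ * 2 *
              (ENNReal.ofReal (2 * y) *
                ENNReal.ofReal ((2 * y) ^ (r - 1) / ((2 * y) ^ r + |t - x| ^ r))) * (U t : ℝ≥0∞) := by
              gcongr
              exact ptw r hr |t - x| y (abs_nonneg _) hy
          _ = _ := by ring
    _ = ((1 - ENNReal.ofReal ((2:ℝ) ^ (-r)))⁻¹ * 2 * ENNReal.ofReal (2 * y)) *
        ∫⁻ t, (ENNReal.ofReal ((2 * y) ^ (r - 1) / ((2 * y) ^ r + |t - x| ^ r)) * (U t : ℝ≥0∞)) := by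
        refine lintegral_const_mul _ ?_
        refine Measurable.mul ?_ hm
        refine ENNReal.measurable_ofReal.comp ?_
        fun_prop
    _ ≤ ((1 - ENNReal.ofReal ((2:ℝ) ^ (-r)))⁻¹ * 2 * ENNReal.ofReal (2 * y)) *
        (K * ENNReal.ofReal (1 / (2 * y)) * u U x y 0) := by
        gcongr
        have h3 := hK (x - y) (x + y) (by linarith)
        have e1 : x + y - (x - y) = 2 * y := by ring
        have e2 : (x - y + (x + y)) / 2 = x := by ring
        rw [e1, e2] at h3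
        have e3 : u U x y 0 = ∫⁻ t in Ioo (x - y) (x + y), (U t : ℝ≥0∞) := by
          unfold u; simp
        rw [e3]
        exact h3
    _ = _ := by
        have h4 : ENNReal.ofReal (2 * y) * ENNReal.ofReal (1 / (2 * y)) = 1 := by
          rw [← ENNReal.ofReal_mul (by positivity), mul_one_div_cancel (by positivity)]
          simp
        calc _ = (1 - ENNReal.ofReal ((2:ℝ) ^ (-r)))⁻¹ * 2 * K * u U x y 0 *
              (ENNReal.ofReal (2 * y) * ENNReal.ofReal (1 / (2 * y))) := by ring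
          _ = _ := by rw [h4, mul_one]

/-- an abstract decay lemma -/
lemma decay (S a : ℕ → ℝ≥0∞) (C : ℝ) (hC : 2 ≤ C) (hfin : ∀ j, a j < ⊤)
    (hS : ∀ j, S j = a j + S (j + 1)) (hle : ∀ j, S j ≤ ENNReal.ofReal C * a j) (j : ℕ) :
    a j ≤ ENNReal.ofReal (C * (1 - 1 / C) ^ j) * a 0 := by
  have hC0 : 0 < C := by linarith
  have hSf : ∀ j, S j ≠ ⊤ := fun j =>
    ((hle j).trans_lt (ENNReal.mul_lt_top ENNReal.ofReal_lt_top (hfin j))).ne
  have hreal : ∀ j, (S j).toReal = (a j).toReal + (S (j + 1)).toReal := by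
    intro j
    rw [hS j, ENNReal.toReal_add (hfin j).ne (hSf (j + 1))]
  have hler : ∀ j, (S j).toReal ≤ C * (a j).toReal := by
    intro j
    have h := ENNReal.toReal_mono (ENNReal.mul_lt_top ENNReal.ofReal_lt_top (hfin j)).ne (hle j)
    rwa [ENNReal.toReal_mul, ENNReal.toReal_ofReal hC0.le] at h
  have hstep : ∀ j, (S (j + 1)).toReal ≤ (1 - 1 / C) * (S j).toReal := by
    intro j
    have h1 := hreal j
    have h2 := hler j
    have h3 : (S j).toReal / C ≤ (a j).toReal := by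
      rw [div_le_iff₀ hC0]; linarith
    have h4 : (1 - 1 / C) * (S j).toReal = (S j).toReal - (S j).toReal / C := by ring
    rw [h4]
    linarith
  have hth : 0 ≤ 1 - 1 / C := by
    have : 1 / C ≤ 1 := by rw [div_le_one hC0]; linarith
    linarith
  have hind : ∀ j, (S j).toReal ≤ (1 - 1 / C) ^ j * (S 0).toReal := by
    intro j
    induction j with
    | zero => simp
    | succ j ih =>
      calc (S (j + 1)).toReal ≤ (1 - 1 / C) * (S j).toReal := hstep j
        _ ≤ (1 - 1 / C) * ((1 - 1 / C) ^ j * (S 0).toReal) := by gcongr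
        _ = _ := by ring
  have h5 : (a j).toReal ≤ C * (1 - 1 / C) ^ j * (a 0).toReal := by
    calc (a j).toReal ≤ (S j).toReal := by
          have := hreal j
          have h6 : 0 ≤ (S (j + 1)).toReal := ENNReal.toReal_nonneg
          linarith
      _ ≤ (1 - 1 / C) ^ j * (S 0).toReal := hind j
      _ ≤ (1 - 1 / C) ^ j * (C * (a 0).toReal) := by
          gcongr
          exact hler 0
      _ = _ := by ring
  rw [← ENNReal.ofReal_toReal (hfin j).ne, ← ENNReal.ofReal_toReal (hfin 0).ne,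
    ← ENNReal.ofReal_mul (by positivity)]
  exact ENNReal.ofReal_le_ofReal (by simpa using h5)

theorem main : S_opn := by
  intro r hr U hU ⟨K, hKf, hK⟩
  have hGf := gfin r hr
  set G : ℝ≥0∞ := (1 - ENNReal.ofReal ((2:ℝ) ^ (-r)))⁻¹ * 2 with hG
  set C : ℝ := max 2 (G * K).toReal with hCdef
  have hC2 : 2 ≤ C := le_max_left _ _
  have hC0 : 0 < C := by linarith
  have hGK : G * K ≤ ENNReal.ofReal C := by
    rw [← ENNReal.ofReal_toReal (ENNReal.mul_lt_top hGf hKf).ne]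
    exact ENNReal.ofReal_le_ofReal (le_max_right _ _)
  have hth : 0 < 1 - 1 / C := by
    have h : 1 / C ≤ 1 / 2 := by
      rw [div_le_div_iff₀ hC0 (by norm_num)]; linarith
    linarith
  have hth1 : 1 - 1 / C < 1 := by
    have : 0 < 1 / C := by positivity
    linarith
  -- the decay of the masses
  have hdec : ∀ x y : ℝ, 0 < y → ∀ j : ℕ,
      u U x y j ≤ ENNReal.ofReal (C * ((2:ℝ) ^ r * (1 - 1 / C)) ^ j) * u U x y 0 := by
    intro x y hy j
    have hsh : ∀ i k : ℕ, u U x (2 ^ i * y) k = u U x y (i + k) := by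
      intro i k
      unfold u
      have : (2:ℝ) ^ k * (2 ^ i * y) = 2 ^ (i + k) * y := by rw [pow_add]; ring
      rw [this]
    set a : ℕ → ℝ≥0∞ := fun j => ENNReal.ofReal ((2:ℝ) ^ (-((j:ℝ) * r))) * u U x y j with ha
    set S : ℕ → ℝ≥0∞ := fun j => ∑' k : ℕ, a (j + k) with hS
    have h1 : ∀ j, a j < ⊤ := fun j => ENNReal.mul_lt_top ENNReal.ofReal_lt_top (hU.fin _ _)
    have h2 : ∀ j, S j = a j + S (j + 1) := by
      intro j
      simp only [hS]
      rw [tsum_eq_zero_add' ENNReal.summable]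
      congr 1
      refine tsum_congr fun k => ?_
      congr 1
      ring
    have h3 : ∀ j, S j ≤ ENNReal.ofReal C * a j := by
      intro j
      have h4 := summed r hr U hU K hK x (2 ^ j * y) (by positivity)
      have h5 : S j = ENNReal.ofReal ((2:ℝ) ^ (-((j:ℝ) * r))) *
          ∑' k : ℕ, ENNReal.ofReal ((2:ℝ) ^ (-((k:ℝ) * r))) * u U x (2 ^ j * y) k := by
        rw [← ENNReal.tsum_mul_left]
        refine tsum_congr fun k => ?_
        simp only [ha]
        rw [hsh, ← mul_assoc, ← ENNReal.ofReal_mul (by positivity), ← Real.rpow_add (by norm_num)]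
        congr 3
        push_cast
        ring
      rw [h5]
      calc _ ≤ ENNReal.ofReal ((2:ℝ) ^ (-((j:ℝ) * r))) * (G * K * u U x (2 ^ j * y) 0) := by
            gcongr
        _ ≤ ENNReal.ofReal ((2:ℝ) ^ (-((j:ℝ) * r))) * (ENNReal.ofReal C * u U x (2 ^ j * y) 0) := by
            gcongr
        _ = ENNReal.ofReal C * a j := by
            rw [hsh, add_zero]
            simp only [ha]
            ring
    have h6 := decay S a C hC2 h1 h2 h3 j
    have h7 : u U x y j = ENNReal.ofReal ((2:ℝ) ^ ((j:ℝ) * r)) * a j := by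
      simp only [ha]
      rw [← mul_assoc, ← ENNReal.ofReal_mul (by positivity), ← Real.rpow_add (by norm_num)]
      simp
    have h8 : a 0 = u U x y 0 := by simp [ha]
    rw [h7]
    calc _ ≤ ENNReal.ofReal ((2:ℝ) ^ ((j:ℝ) * r)) *
          (ENNReal.ofReal (C * (1 - 1 / C) ^ j) * a 0) := by gcongr
      _ = _ := by
          rw [h8, ← mul_assoc, ← ENNReal.ofReal_mul (by positivity)]
          congr 2
          rw [mul_pow, ← Real.rpow_natCast ((2:ℝ) ^ r), ← Real.rpow_mul (by norm_num)]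
          rw [mul_comm r (j:ℝ)]
          ring
  -- the exponent
  set s : ℝ := max (r + Real.logb 2 (1 - 1 / C)) (r / 2) with hs
  have hs0 : 0 ≤ s := le_trans (by positivity) (le_max_right _ _)
  have hsr : s < r := by
    apply max_lt
    · have : Real.logb 2 (1 - 1 / C) < 0 := Real.logb_neg (by norm_num) hth hth1
      linarith
    · linarith
  have hq : (2:ℝ) ^ r * (1 - 1 / C) ≤ (2:ℝ) ^ s := by
    calc (2:ℝ) ^ r * (1 - 1 / C) = (2:ℝ) ^ (r + Real.logb 2 (1 - 1 / C)) := by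
          rw [Real.rpow_add (by norm_num), Real.rpow_logb (by norm_num) (by norm_num) hth]
      _ ≤ (2:ℝ) ^ s := Real.rpow_le_rpow_of_exponent_le (by norm_num) (le_max_left _ _)
  refine ⟨s, hs0, hsr, ENNReal.ofReal (C * 2 ^ s), ENNReal.ofReal_lt_top, ?_⟩
  intro a x y ha hy
  obtain ⟨j, hj1, hj2⟩ : ∃ j : ℕ, a ≤ 2 ^ j ∧ (2:ℝ) ^ j ≤ 2 * a := by
    classical
    have hex : ∃ j : ℕ, a ≤ 2 ^ j := by
      obtain ⟨k, hk⟩ := pow_unbounded_of_one_lt a (one_lt_two : (1:ℝ) < 2)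
      exact ⟨k, hk.le⟩
    refine ⟨Nat.find hex, Nat.find_spec hex, ?_⟩
    rcases Nat.eq_zero_or_pos (Nat.find hex) with h0 | h0
    · rw [h0]; simp; linarith
    · have h1 := Nat.find_min hex (Nat.sub_lt h0 one_pos)
      rw [not_le] at h1
      have h2 : (2:ℝ) ^ (Nat.find hex) = 2 * 2 ^ (Nat.find hex - 1) := by
        rw [← pow_succ']
        congr 1
        omega
      rw [h2]
      linarith
  have e0 : u U x y 0 = ∫⁻ t in Ioo (x - y) (x + y), (U t : ℝ≥0∞) := by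
    unfold u; simp
  rw [← e0]
  calc (∫⁻ t in Ioo (x - a * y) (x + a * y), (U t : ℝ≥0∞)) ≤ u U x y j := by
        unfold u
        apply lintegral_mono_set
        apply Ioo_subset_Ioo
        · have := mul_le_mul_of_nonneg_right hj1 hy.le
          linarith
        · have := mul_le_mul_of_nonneg_right hj1 hy.le
          linarith
    _ ≤ ENNReal.ofReal (C * ((2:ℝ) ^ r * (1 - 1 / C)) ^ j) * u U x y 0 := hdec x y hy j
    _ ≤ ENNReal.ofReal (C * 2 ^ s) * ENNReal.ofReal (a ^ s) * u U x y 0 := by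
        gcongr
        rw [← ENNReal.ofReal_mul (by positivity)]
        apply ENNReal.ofReal_le_ofReal
        calc C * ((2:ℝ) ^ r * (1 - 1 / C)) ^ j ≤ C * ((2:ℝ) ^ s) ^ j := by gcongr
          _ = C * ((2:ℝ) ^ j) ^ s := by
              rw [← Real.rpow_natCast ((2:ℝ) ^ s), ← Real.rpow_natCast (2:ℝ) j,
                ← Real.rpow_mul (by norm_num), ← Real.rpow_mul (by norm_num), mul_comm s (j:ℝ)]
          _ ≤ C * (2 * a) ^ s := by gcongr
          _ = C * 2 ^ s * a ^ s := by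
              rw [Real.mul_rpow (by norm_num) (by linarith)]
              ring

end Pool.Agent.U319.GL

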